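import Pool.Agent.H98.OCV.Core3

/-!
# Theorem OCV in codimension 2 without (H7): statements of the rows

`OCVWStmt` is `Pool.OCV.OCVStmt 2` without `(H7)`: the visible part `vis` of the context is small
(positions only). Note: /team-store/OCVW_helper6.md.

Either the slopes of one line are not nearly on one straight line (then `COREStmt` applies with the
context as visible part), or each context is full in its own direction and the walk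
`same point, same context` gives a contradiction.
-/

set_option autoImplicit false

namespace Pool.OCW

open Finset Real
open Pool.Agent.H49.Ent Pool.Agent.H32.Dense Pool.STK Pool.KAF
open Pool.OCM Pool.OCV Pool.OCV.Core

/-- **Theorem OCVW.** -/
def OCVWStmt : Prop :=
  ∀ (A : ℕ) (c₀ ca p₀ : ℝ), 0 < c₀ → 0 < ca → 0 < p₀ → ∃ (x₀ η κ π₀ ι ε : ℝ) (X₀ : ℕ), 0 < x₀ ∧
    0 < η ∧ η ≤ 1 ∧ 0 < κ ∧ κ ≤ 1 ∧ 0 < π₀ ∧ 0 < ι ∧ 0 < ε ∧ ∀ d : Dat 2, d.OK A → X₀ ≤ d.X →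
      d.H1 ι → d.H2 ι → d.H3 ι → d.H4 ca η π₀ → d.H5 c₀ κ π₀ → d.H6a x₀ p₀ ε → d.H6b x₀ p₀ ε →
        False

/-! ### CASEA -/

/-- The chords of the line of the sample are nearly parallel. -/
def Par (d : Dat 2) (a p₁ : ℝ) : Set d.Om :=
  {ω | ∃ n : Fin 2 → ℝ, (∀ i, |n i| ≤ 1) ∧ (∃ i, |n i| = 1) ∧
    Pr (d.pl ω) {ρ | (2 : ℝ) ^ (-(a * d.X)) ≤ |∑ i, n i * (d.S (d.T ρ) i - d.S (d.T ω) i)|} < p₁}

/-- **CASEA.** `COREStmt 2` with the context as visible part, references on the line itself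
(`GEOSStmt`). -/
def CASEAStmt : Prop :=
  ∀ (A : ℕ) (c₀ ca p₁ π₁ : ℝ), 0 < c₀ → 0 < ca → 0 < p₁ → 0 < π₁ →
    ∃ (a η κ π₀ ι : ℝ) (X₀ : ℕ), 0 < a ∧ a ≤ 1 ∧ 0 < η ∧ η ≤ 1 ∧ 0 < κ ∧ κ ≤ 1 ∧ 0 < π₀ ∧ 0 < ι ∧
      ∀ d : Dat 2, d.OK A → X₀ ≤ d.X → d.H1 ι → d.H2 ι → d.H3 ι → d.H4 ca η π₀ →
        d.H5 c₀ κ π₀ → 1 - π₁ ≤ Pr d.P (Par d a p₁)

/-! ### FULC -/

open Classical in
/-- **FULC.** CORE without (H5): for good references the rows are full. `core_of'` with another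
conclusion; `wtz` as in `NFRStmt`. -/
def FULCStmt (c : ℕ) : Prop :=
  ∀ ca : ℝ, 0 < ca → ∃ dd : ℝ, 0 < dd ∧ ∀ (A kz : ℕ) (ν ε : ℝ), 0 < ν → ν ≤ 1 / 64 → 0 < ε →
    ∃ D₀ : ℝ, ∀ K : ℕ, ∃ (η π₀ ι : ℝ) (X₀ : ℕ), 0 < η ∧ η ≤ 1 ∧ 0 < π₀ ∧ 0 < ι ∧
      ∀ d : Dat c, d.OK A → X₀ ≤ d.X → d.H1 ι → d.H2 ι → d.H3 ι → d.H4 ca η π₀ →
        ∀ (R : Type) [Fintype R] (Q : R → ℝ) (w₀ : R → d.Om) (w ρ : Fin c → R → d.Om)
          (kmax : ℕ), Sch d Q w₀ w ρ ι → (kmax : ℝ) ≤ 1 / 64 * d.X →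
          ∑ v, Q v * (if v ∈ Good d w₀ w ρ ⌊ν * d.X⌋₊ kz kmax dd then
            ∑ r ∈ Finset.Ico ⌊(1 / 4 : ℝ) * d.X⌋₊ (2 * ⌊(1 / 4 : ℝ) * d.X⌋₊),
              wtz Q (fun v => nz (Mx d kmax (xr d w₀ ρ v)) (d.N (w₀ v))) (xr d w₀ ρ) d.X
                (d.X + (kz + 4) + 1 - r) K D₀ v else 0) ≤ ε * d.X

/-! ### GEO1 -/

/-- **GEO1.** In codimension 1, for typical samples one of the two kinds of references (on the line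
itself) is good with positive probability. `kz = 2`. -/
def GEO1Stmt : Prop :=
  ∀ p₀ uu dd ε₂ : ℝ, 0 < p₀ → 0 < uu → 0 < dd → 0 < ε₂ → ∃ (ν x₀ q₀ ε ι : ℝ) (X₀ : ℕ), 0 < ν ∧
    ν ≤ uu ∧ 0 < x₀ ∧ 0 < q₀ ∧ 0 < ε ∧ 0 < ι ∧ ∀ (A : ℕ) (d : Dat 1), d.OK A → X₀ ≤ d.X →
      d.H1 ι → d.H6a x₀ p₀ ε → ∃ kmax : ℕ, (kmax : ℝ) ≤ uu * d.X ∧
        Pr d.P {ω | ∀ s : Bool, Pr (ker d s ⌊ν * d.X⌋₊ ω)
          {a | (ω, fun _ => a) ∈ Good d (Prod.fst : d.Om × (Fin 1 → d.Om) → d.Om)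
            (fun _ v => v.1) (fun k v => v.2 k) ⌊ν * d.X⌋₊ 2 kmax dd} < q₀} ≤ ε₂

/-! ### FUL -/

open Classical in
/-- The conclusion of FUL: the block of rows `[b, 2 b)` has bounded density on a large part of
the law, given the coarse rows and `T` (which determines the context). -/
def Full (d : Dat 1) (b : ℕ) (ε q₀ ε₂ : ℝ) (f : d.Om → ℝ) : Prop :=
  (∀ ω, 0 ≤ f ω ∧ f ω ≤ 1) ∧ Pr d.P {ω | f ω < q₀} ≤ ε₂ ∧
    ∀ ω₀, ∑ ω, (if d.row (2 * b) ω = d.row (2 * b) ω₀ ∧ d.T ω = d.T ω₀ then d.P ω * f ω else 0) ≤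
      (2 : ℝ) ^ (-((1 - ε) * b)) * Pr d.P {ω | d.row b ω = d.row b ω₀ ∧ d.T ω = d.T ω₀}

/-- **FUL.** In codimension 1 the normal position is full given the context. -/
def FULStmt : Prop :=
  ∀ (A : ℕ) (ca p₀ ε ε₂ : ℝ), 0 < ca → 0 < p₀ → 0 < ε → 0 < ε₂ →
    ∃ (q₀ η π₀ ι x₀ ε₃ : ℝ) (X₀ : ℕ), 0 < q₀ ∧ 0 < η ∧ η ≤ 1 ∧ 0 < π₀ ∧ 0 < ι ∧ 0 < x₀ ∧ 0 < ε₃ ∧
      ∀ d : Dat 1, d.OK A → X₀ ≤ d.X → Det d.P d.T d.B → d.H1 ι → d.H2 ι → d.H3 ι →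
        d.H4 ca η π₀ → d.H6a x₀ p₀ ε₃ → ∃ f : d.Om → ℝ,
          Full d ⌊(1 / 4 : ℝ) * d.X⌋₊ ε q₀ ε₂ f

/-! ### RED -/

section

variable (d : Dat 2)

/-- Three samples of one line. -/
noncomputable def P3 (v : d.Om × d.Om × d.Om) : ℝ :=
  d.P v.1 * (d.pl v.1 v.2.1 * d.pl v.1 v.2.2)

/-- The chord between two times. -/
def hh (t : d.Tau × d.Tau) (i : Fin 2) : ℝ := d.S t.2 i - d.S t.1 i

open Classical in
/-- The larger coordinate of the chord. -/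
noncomputable def im (t : d.Tau × d.Tau) : Fin 2 := if |hh d t 1| ≤ |hh d t 0| then 0 else 1

/-- The other coordinate. -/
noncomputable def jm (t : d.Tau × d.Tau) : Fin 2 := 1 - im d t

/-- The slope of the chord. -/
noncomputable def sl (t : d.Tau × d.Tau) : ℝ := hh d t (jm d t) / hh d t (im d t)

/-- The normal of the chord: coefficient `1` at `jm`, minus the slope at `im`. -/
noncomputable def nv (t : d.Tau × d.Tau) (i : Fin 2) : ℝ := if i = im d t then -sl d t else 1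

/-- The component of a vector in the direction of the normal. -/
noncomputable def nc (t : d.Tau × d.Tau) (x : Fin 2 → ℝ) : ℝ := ∑ i, nv d t i * x i

/-- The times of the two auxiliary samples. -/
def ta (v : d.Om × d.Om × d.Om) : d.Tau × d.Tau := (d.T v.2.1, d.T v.2.2)

/-- The chord is long, and the slope of the first sample lies on the chord. -/
def FS (x₀ a : ℝ) : Set (d.Om × d.Om × d.Om) :=
  {v | (2 : ℝ) ^ (-(x₀ * d.X)) ≤ |hh d (ta d v) (im d (ta d v))| ∧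
    |nc d (ta d v) (fun i => d.S (d.T v.1) i - d.S (d.T v.2.1) i)| ≤ (2 : ℝ) ^ (-(a * d.X))}

/-- The law of the reduced family. -/
noncomputable def PF (x₀ a : ℝ) : d.Om × d.Om × d.Om → ℝ :=
  cond (P3 d) (fun v => v ∈ FS d x₀ a) True

/-- The constant value of the normal component of the slopes of the line. -/
noncomputable def s0 (t : d.Tau × d.Tau) : ℝ := nc d t (d.S t.1)

/-- The velocity in the direction of the normal. -/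
noncomputable def Bv (l : d.Lam) (t : d.Tau × d.Tau) : ℝ := nc d t (d.beR l) - s0 d t * d.omR l

/-- The position in the direction of the normal at time zero, in units of the level `X'`, computed
from a sample. -/
noncomputable def Av (X' : ℕ) (v : d.Om × d.Om × d.Om) : ℝ :=
  nc d (ta d v) (fun i => (d.N v.1 i : ℝ) - d.kn (d.B v.1) (d.T v.1) i) / 2 ^ (d.X - X') -
    2 ^ X' * d.th (d.T v.1) * Bv d (d.L v.1) (ta d v)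

open Classical in
/-- The same, on the line: the value at a chosen sample. -/
noncomputable def Al (x₀ a : ℝ) (X' : ℕ) (l : d.Lam × (d.Tau × d.Tau)) : ℤ :=
  if h : ∃ v, 0 < PF d x₀ a v ∧ (d.L v.1, ta d v) = l then ⌊Av d X' h.choose⌋ else 0

/-- The context of the reduced family. -/
noncomputable def bl (x₀ a : ℝ) (X' : ℕ) (l : d.Lam × (d.Tau × d.Tau)) :
    d.Bt × (d.Tau × d.Tau) × (ℤ × ℤ) :=
  (d.b l.1, l.2, (Al d x₀ a X' l, ⌊(2 : ℝ) ^ X' * Bv d l.1 l.2⌋))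

/-- **The reduced family.** Codimension 1, scale `X'`; the time contains the context. -/
noncomputable def red (x₀ a : ℝ) (X' : ℕ) : Dat 1 where
  Om := d.Om × d.Om × d.Om
  Lam := d.Lam × (d.Tau × d.Tau)
  Tau := d.Tau × (d.Bt × (d.Tau × d.Tau) × (ℤ × ℤ))
  Bt := d.Bt × (d.Tau × d.Tau) × (ℤ × ℤ)
  Vt := Unit
  P := PF d x₀ a
  L := fun v => (d.L v.1, ta d v)
  T := fun v => (d.T v.1, bl d x₀ a X' (d.L v.1, ta d v))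
  b := bl d x₀ a X'
  vis := fun _ => ()
  y := fun l => d.y l.1 / 2 ^ (d.X - X')
  om := fun l => d.om l.1 / 2 ^ (d.X - X')
  be := fun l _ => d.be l.1 (im d l.2) / 2 ^ (d.X - X')
  N := fun v _ => d.N v.1 (im d (ta d v)) / 2 ^ (d.X - X')
  th := fun t => d.th t.1
  S := fun t _ => d.S t.1 (im d t.2.2.1)
  kn := fun b t _ => d.kn b.1 t.1 (im d b.2.1) / 2 ^ (d.X - X')
  X := X'

end

/-- **RED.** The reduced family is a family in codimension 1. -/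
def REDStmt : Prop :=
  ∀ (A : ℕ) (ca θ pF η' π' ι' : ℝ), 0 < ca → 0 < θ → θ ≤ 1 / 8 → 0 < pF → 0 < η' → η' ≤ 1 →
    0 < π' → 0 < ι' → ∃ (η π₀ ι : ℝ) (X₀ : ℕ), 0 < η ∧ η ≤ 1 ∧ 0 < π₀ ∧ 0 < ι ∧
      ∀ (d : Dat 2) (x₀ a : ℝ), d.OK A → X₀ ≤ d.X → 2 * θ ≤ a → 0 < x₀ → d.H1 ι → d.H2 ι →
        d.H3 ι → d.H4 ca η π₀ → pF ≤ Pr (P3 d) (FS d x₀ a) →
        (red d x₀ a ⌊θ * d.X⌋₊).OK (A + 1) ∧ (red d x₀ a ⌊θ * d.X⌋₊).H1 ι' ∧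
        (red d x₀ a ⌊θ * d.X⌋₊).H2 ι' ∧ (red d x₀ a ⌊θ * d.X⌋₊).H3 ι' ∧
        (red d x₀ a ⌊θ * d.X⌋₊).H4 (ca / 2) η' π'

/-! ### TRV -/

/-- The directions of the chords of two triples are transversal. -/
def Trv (d : Dat 2) (x : ℝ) (v v' : d.Om × d.Om × d.Om) : Prop :=
  (2 : ℝ) ^ (-(x * d.X)) ≤ |nv d (ta d v) 0 * nv d (ta d v') 1 - nv d (ta d v) 1 * nv d (ta d v') 0|

/-- **TRV.** The geometry of the triples: `FS` has positive probability, (H6a) for the reduced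
family, and copies with the same point are transversal with positive probability. -/
def TRVStmt : Prop :=
  ∀ (p₀ ε₃ : ℝ), 0 < p₀ → 0 < ε₃ → ∃ (p₁ π₁ ε : ℝ), 0 < p₁ ∧ 0 < π₁ ∧ 0 < ε ∧
    ∀ (A : ℕ) (d : Dat 2) (x₀ a θ : ℝ), d.OK A → 0 < x₀ → 8 * x₀ ≤ a → 0 < θ → θ ≤ 1 →
      16 ≤ x₀ * d.X → 1 - π₁ ≤ Pr d.P (Par d a p₁) → d.H6a x₀ p₀ ε → d.H6b x₀ p₀ ε →
        p₀ / 2 ≤ Pr (P3 d) (FS d x₀ (a / 2)) ∧
        (∀ x' : ℝ, 2 * x₀ * d.X ≤ x' * ⌊θ * d.X⌋₊ →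
          (red d x₀ (a / 2) ⌊θ * d.X⌋₊).H6a x' (p₀ / 4) ε₃) ∧
        Pr (PF d x₀ (a / 2)) {v | Pr (cond (PF d x₀ (a / 2)) (fun w => d.pt w.1) (d.pt v.1))
          {w | Trv d (3 * x₀) v w} < p₀ ^ 2 / 8} ≤ ε₃

/-! ### WALK -/

/-- **WALK.** The contradiction. `X' = ⌊θ X⌋`, `b = ⌊X' / 4⌋`. -/
def WALKStmt : Prop :=
  ∀ (A : ℕ) (c₀ pF p₂ q₀ θ : ℝ), 0 < c₀ → 0 < pF → 0 < p₂ → p₂ ≤ 1 → 0 < q₀ → 0 < θ →
    θ ≤ 1 / 8 → ∃ (x₁ κ π₀ : ℝ) (X₀ : ℕ), 0 < x₁ ∧ 0 < κ ∧ κ ≤ 1 ∧ 0 < π₀ ∧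
      ∀ (d : Dat 2) (x₀ a : ℝ) (f : d.Om × d.Om × d.Om → ℝ), d.OK A → X₀ ≤ d.X → 0 < x₀ →
        x₀ ≤ x₁ → 2 * θ ≤ a → pF ≤ Pr (P3 d) (FS d x₀ a) → d.H5 c₀ κ π₀ →
        Full (red d x₀ a ⌊θ * d.X⌋₊) ⌊(1 / 4 : ℝ) * (⌊θ * d.X⌋₊ : ℝ)⌋₊ (c₀ / 32) q₀ (p₂ / 16) f →
        Pr (PF d x₀ a) {v | Pr (cond (PF d x₀ a) (fun w => d.pt w.1) (d.pt v.1))
          {w | Trv d (3 * x₀) v w} < p₂} ≤ 1 / 8 → False

end Pool.OCW
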